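import Pool.Agent.Q96.SP.IC

/-!
# Zeros and poles at the edge of absolute convergence: Hausdorff dimension of the exceptional twists

`f` runs over the completely multiplicative functions with values `1` and `-1` at the primes (the
value at the `k`-th prime is `sg ω k`, `ω : ℕ → Bool`).  For a projective variety `X` over `ℚ` and `i`
the twisted `L`-function is `L_f(s) = ∏_p det(1 - f(p) F_p p^{-s} ; H^i)⁻¹`, and `s₀ = i/2 + 1`.
For `f = 1` this is the `L`-function of the problem.

`Like N m`: the `f` for which some `X`, `i` with `b_i(X) ≤ N` give an `L_f` of the size of a zero or of a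
pole of (real) order `m` at `s₀`.  `Zeros N m`: some such `L_f` has a meromorphic continuation with a zero
or pole of order at least `m` at `s₀`.  `PointZeros N m`: the `L_f` of `N` points is `ζ^{-m} exp G` with `G`
analytic in `Re s > 1/2`.

Project IC of helper255; the assembly of the proof is `Pool.Agent.Q96.SP.IC`.
-/

set_option autoImplicit false

namespace Pool.Agent.Results.MP_2b9663_nt.DimensionOfZerosAtTheEdge

open Filter MeasureTheory Pool.Agent.Q255.IC

/-- The set of the `f` for which some variety has an `L`-function of rank at most `N` with the size of a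
zero or a pole of order `m` at `s₀` has Hausdorff dimension exactly `H((1 + m/N)/2) / log 2`, `H` the
binary entropy; for integers `m` the same holds for honest zeros and poles of a continuation. -/
theorem result (N : ℕ) (hN : 0 < N) :
    (∀ m : ℝ, 0 < m → m ≤ N →
      dimS (Like N m) = ENNReal.ofReal (Real.binEntropy ((1 + m / N) / 2) / Real.log 2)) ∧
    (∀ m : ℕ, 0 < m → m ≤ N → PointZeros N m ⊆ Zeros N m ∧ Zeros N m ⊆ Like N m ∧
      dimS (PointZeros N m) =
        ENNReal.ofReal (Real.binEntropy ((1 + (m : ℝ) / N) / 2) / Real.log 2)) :=
  ⟨(Pool.Agent.Q96.SP.IC.all N hN).1, (Pool.Agent.Q96.SP.IC.all N hN).2.1⟩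

end Pool.Agent.Results.MP_2b9663_nt.DimensionOfZerosAtTheEdge
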