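import Pool.Agent.Q96.SP.IC

/-!
# Zeros and poles at the edge of absolute convergence: their cost in information

`f` runs over the completely multiplicative functions with values `1` and `-1` at the primes (the
value at the `k`-th prime is `sg ω k`, `ω : ℕ → Bool`).  For a projective variety `X` over `ℚ` and `i`
the twisted `L`-function is `L_f(s) = ∏_p det(1 - f(p) F_p p^{-s} ; H^i)⁻¹`, and `s₀ = i/2 + 1`.
For `f = 1` this is the `L`-function of the problem.

`Like N m`: the `f` for which some `X`, `i` with `b_i(X) ≤ N` give an `L_f` of the size of a zero or of a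
pole of (real) order `m` at `s₀`.  `PointZeros N m`: the `L_f` of `N` points is `ζ^{-m} exp G` with `G`
analytic in `Re s > 1/2`.

Project IC of helper255; the assembly of the proof is `Pool.Agent.Q96.SP.IC`.
-/

set_option autoImplicit false

namespace Pool.Agent.Results.MP_2b9663_nt.EntropyOfZerosAtTheEdge

open Filter MeasureTheory Pool.Agent.Q255.IC

/-- If the law of the signs of `f` is arbitrary, with entropy at least `(log 2 - c - o(1)) n` for the
first `n` signs, then some `L`-function of rank at most `N` has the size of a zero or pole of order `m` at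
`s₀` with probability at most `c / (log 2 - H((1 + m/N)/2))`, and this is attained. -/
theorem result (N : ℕ) (hN : 0 < N) :
    (∀ (ν : Measure (ℕ → Bool)) [IsProbabilityMeasure ν] (m c : ℝ), 0 < m → m ≤ N → 0 ≤ c →
      (∀ ε : ℝ, 0 < ε → ∀ᶠ n : ℕ in atTop, (Real.log 2 - c - ε) * n ≤ entropy ν n) →
        ν (Like N m) ≤ ENNReal.ofReal (c / (Real.log 2 - Real.binEntropy ((1 + m / N) / 2)))) ∧
    (∀ m c : ℝ, 0 < m → m ≤ N → 0 ≤ c → c ≤ Real.log 2 - Real.binEntropy ((1 + m / N) / 2) →
      ∃ ν : Measure (ℕ → Bool), IsProbabilityMeasure ν ∧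
        (∀ n : ℕ, (Real.log 2 - c) * n ≤ entropy ν n) ∧
        ν (Like N m) = ENNReal.ofReal (c / (Real.log 2 - Real.binEntropy ((1 + m / N) / 2))) ∧
        ∀ k : ℕ, (k : ℝ) = m → ν (PointZeros N k) =
          ENNReal.ofReal (c / (Real.log 2 - Real.binEntropy ((1 + m / N) / 2)))) :=
  (Pool.Agent.Q96.SP.IC.all N hN).2.2

end Pool.Agent.Results.MP_2b9663_nt.EntropyOfZerosAtTheEdge
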