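import Pool.Agent.Q69.ED.Low

/-!
# How rare are apparent zeros at the edge of absolute convergence

Let `X_ν`, `ν ∈ ℤ^d`, be the fibres of a family of smooth projective varieties, `b` the dimension of their cohomology of
degree `w`, and let `α_{p,j}(ν)`, `j ≤ b`, be the eigenvalues of the Frobenius at `p` (they depend on `ν` modulo `p` and have
absolute value `p^(w/2)` at the good primes; put `0` at the others). At `s₀ = w/2 + 1`, the edge of the half-plane of absolute
convergence, a zero of order `m` of `L(X_ν, s) = ∏_p ∏_j (1 - α_{p,j}(ν) p^(-s))⁻¹` shows itself in the partial products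
`P(x)` over the primes `p ≤ x`: one has `P(x) / P(y) ≈ (log x / log y)^(-m)`.

It is determined how rare this is in families of such Euler products. Let the mean over `ν` modulo `p` of the normalized trace
`Re ∑_j α_{p,j} / p^(w/2)` be `r + O(p^(-δ))` (so that generically there is a pole of order `r`). Let `a > 1` and
`-r < m < b`. The proportion of the members `ν` with `|P(x) / P(y)| ≤ (log x / log y)^(-m)` for some `x` between `y ^ a` and `X`
(`X ≤ e^y`) is at most `exp (-y^(E - ε))`, and if the traces come close to their minimum `-b p^(w/2)` for a positive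
proportion of the residues it is at least `exp (-y^(E + ε))`, with the exponent `E = a ^ ((m + r) / (b + r))`. The same for
apparent poles of order `m`, with `E = a ^ ((m - r) / (b - r))`.

Proof. The cheapest way to get an apparent zero of order `m` is to have traces close to the minimum at all primes between `y` and
`y^E`, and nothing unusual afterwards: this has a probability of `exp (-O(π(y^E)))` by the Chinese remainder theorem, and the
sum over the primes beyond `y^E` exceeds its mean by `κ` only with a probability of `exp (-c κ² y^E)` (Chernoff's bound, valid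
for boxes by comparison of moments of high order).
-/

set_option autoImplicit false

namespace Pool.Agent.Results.MP_2b9663_nt.RarityOfApparentZeros

open Finset

/-- The average over the residues modulo `q`. -/
noncomputable def average (d q : ℕ) (f : (Fin d → ℤ) → ℝ) : ℝ :=
  (∑ ν ∈ Fintype.piFinset fun _ : Fin d => range q, f (fun i => (ν i : ℤ))) / (q : ℝ) ^ d

open Classical in
/-- The share of the residues modulo `q` with the property `P`. -/
noncomputable def share (d q : ℕ) (P : (Fin d → ℤ) → Prop) : ℝ := average d q fun ν => if P ν then 1 else 0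

/-- The box of the integer vectors `ν` with `u i ≤ ν i < u i + L i`. -/
noncomputable def box {d : ℕ} (u : Fin d → ℤ) (L : Fin d → ℕ) : Finset (Fin d → ℤ) :=
  Fintype.piFinset fun i => Ico (u i) (u i + L i)

open Classical in
/-- The proportion of the `ν` of the box with the property `P`. -/
noncomputable def proportion {d : ℕ} (u : Fin d → ℤ) (L : Fin d → ℕ) (P : (Fin d → ℤ) → Prop) : ℝ :=
  (((box u L).filter P).card : ℝ) / ∏ i, (L i : ℝ)

/-- The normalized trace `Re ∑_j α_{p,j}(ν) / p^(w/2)`. -/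
noncomputable def trace {d b : ℕ} (w : ℕ) (α : ℕ → Fin b → (Fin d → ℤ) → ℂ) (p : ℕ) (ν : Fin d → ℤ) : ℝ :=
  (∑ j, α p j ν).re / (p : ℝ) ^ ((w : ℝ) / 2)

/-- A family of Euler products of degree `b` and weight `w` with `d` parameters: the reciprocal roots `α_{p,j}(ν)` of the
factor at `p` depend on `ν` modulo `p` and are at most `p^(w/2)` in absolute value, and the mean over the residues
modulo `p` of the normalized trace is `r + O(p^(-δ))`. -/
structure IsFamily {d b : ℕ} (w : ℕ) (r C δ : ℝ) (α : ℕ → Fin b → (Fin d → ℤ) → ℂ) : Prop where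
  congr : ∀ p : ℕ, p.Prime → ∀ j (ν ν' : Fin d → ℤ), (∀ i, (p : ℤ) ∣ ν i - ν' i) → α p j ν = α p j ν'
  weight : ∀ p : ℕ, p.Prime → ∀ j ν, ‖α p j ν‖ ≤ (p : ℝ) ^ ((w : ℝ) / 2)
  mean : ∀ p : ℕ, p.Prime → |average d p (trace w α p) - r| ≤ C * (p : ℝ) ^ (-δ)

/-- The partial Euler product over the primes `p ≤ x` at the edge `s₀ = w/2 + 1`. -/
noncomputable def euler {d b : ℕ} (w : ℕ) (α : ℕ → Fin b → (Fin d → ℤ) → ℂ) (x : ℕ) (ν : Fin d → ℤ) : ℂ :=
  ∏ p ∈ (range (x + 1)).filter Nat.Prime, ∏ j, (1 - α p j ν / (((p : ℝ) ^ ((w : ℝ) / 2 + 1) : ℝ) : ℂ))⁻¹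

/-- The apparent order of vanishing at the edge between `y` and `x`:
`P(x) / P(y)` has absolute value `(log x / log y)^(-order)`. -/
noncomputable def apparentOrder {d b : ℕ} (w : ℕ) (α : ℕ → Fin b → (Fin d → ℤ) → ℂ) (y x : ℕ) (ν : Fin d → ℤ) : ℝ :=
  -Real.log ‖euler w α x ν / euler w α y ν‖ / Real.log (Real.log x / Real.log y)

/-! ### Proofs -/

open Q69ED

variable {d b : ℕ} {w : ℕ} {r C δ : ℝ} {α : ℕ → Fin b → (Fin d → ℤ) → ℂ}

lemma log_bound {z : ℂ} (hz : ‖z‖ ≤ 1 / 2) : |Real.log ‖1 - z‖ + z.re| ≤ ‖z‖ ^ 2 := by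
  have h1 := Complex.norm_log_one_add_sub_self_le (z := -z) (by rw [norm_neg]; linarith)
  rw [norm_neg] at h1
  have h2 : (Complex.log (1 + -z) - -z).re = Real.log ‖1 - z‖ + z.re := by
    rw [Complex.sub_re, Complex.log_re, Complex.neg_re, ← sub_eq_add_neg]
    ring
  rw [← h2]
  refine (Complex.abs_re_le_norm _).trans (h1.trans ?_)
  have h3 : (1 - ‖z‖)⁻¹ ≤ 2 := by
    rw [inv_le_comm₀ (by linarith) (by norm_num)]
    linarith
  have h4 := mul_le_mul_of_nonneg_left h3 (sq_nonneg ‖z‖)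
  linarith

/-- the number whose distance from `1` gives the factor -/
noncomputable def beta (w : ℕ) (α : ℕ → Fin b → (Fin d → ℤ) → ℂ) (p : ℕ) (j : Fin b) (ν : Fin d → ℤ) : ℂ :=
  α p j ν / (((p : ℝ) ^ ((w : ℝ) / 2 + 1) : ℝ) : ℂ)

lemma norm_beta (hα : IsFamily w r C δ α) {p : ℕ} (hp : p.Prime) (j : Fin b) (ν : Fin d → ℤ) : ‖beta w α p j ν‖ ≤ 1 / p := by
  have hp0 : (0 : ℝ) < p := by exact_mod_cast hp.pos
  have h1 := Real.rpow_pos_of_pos hp0 ((w : ℝ) / 2)
  have h2 := Real.rpow_pos_of_pos hp0 ((w : ℝ) / 2 + 1)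
  unfold beta
  rw [norm_div, Complex.norm_real, Real.norm_eq_abs, abs_of_pos h2, div_le_div_iff₀ h2 hp0, one_mul]
  have e : (p : ℝ) ^ ((w : ℝ) / 2 + 1) = (p : ℝ) ^ ((w : ℝ) / 2) * p := by rw [Real.rpow_add hp0, Real.rpow_one]
  rw [e]
  exact mul_le_mul_of_nonneg_right (hα.weight p hp j ν) hp0.le

lemma half_beta (hα : IsFamily w r C δ α) {p : ℕ} (hp : p.Prime) (j : Fin b) (ν : Fin d → ℤ) : ‖beta w α p j ν‖ ≤ 1 / 2 := by
  refine (norm_beta hα hp j ν).trans ?_
  have : (2 : ℝ) ≤ p := by exact_mod_cast hp.two_le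
  exact div_le_div_of_nonneg_left (by norm_num) (by norm_num) this

lemma one_sub_ne (hα : IsFamily w r C δ α) {p : ℕ} (hp : p.Prime) (j : Fin b) (ν : Fin d → ℤ) : 1 - beta w α p j ν ≠ 0 := by
  intro h
  have h1 : beta w α p j ν = 1 := (sub_eq_zero.1 h).symm
  have h2 := half_beta hα hp j ν
  rw [h1, norm_one] at h2
  norm_num at h2

lemma euler_ne (hα : IsFamily w r C δ α) (x : ℕ) (ν : Fin d → ℤ) : euler w α x ν ≠ 0 := by
  unfold euler
  refine prod_ne_zero_iff.2 fun p hp => prod_ne_zero_iff.2 fun j _ => inv_ne_zero ?_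
  exact one_sub_ne hα (mem_filter.1 hp).2 j ν

lemma log_euler (hα : IsFamily w r C δ α) (x : ℕ) (ν : Fin d → ℤ) :
    Real.log ‖euler w α x ν‖ = -∑ p ∈ (range (x + 1)).filter Nat.Prime, ∑ j, Real.log ‖1 - beta w α p j ν‖ := by
  unfold euler
  rw [norm_prod, Real.log_prod fun p hp => ?_, ← sum_neg_distrib]
  · refine sum_congr rfl fun p hp => ?_
    rw [norm_prod, Real.log_prod fun j _ => ?_, ← sum_neg_distrib]
    · refine sum_congr rfl fun j _ => ?_
      rw [norm_inv, Real.log_inv]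
      rfl
    · rw [norm_inv]
      exact inv_ne_zero (norm_ne_zero_iff.2 (one_sub_ne hα (mem_filter.1 hp).2 j ν))
  · rw [norm_ne_zero_iff]
    exact prod_ne_zero_iff.2 fun j _ => inv_ne_zero (one_sub_ne hα (mem_filter.1 hp).2 j ν)

lemma log_quot (hα : IsFamily w r C δ α) {y x : ℕ} (hyx : y ≤ x) (ν : Fin d → ℤ) :
    -Real.log ‖euler w α x ν / euler w α y ν‖ = ∑ p ∈ Pr y x, ∑ j, Real.log ‖1 - beta w α p j ν‖ := by
  rw [norm_div, Real.log_div (norm_ne_zero_iff.2 (euler_ne hα x ν)) (norm_ne_zero_iff.2 (euler_ne hα y ν)),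
    log_euler hα, log_euler hα]
  have h1 : (range (x + 1)).filter Nat.Prime = ((range (y + 1)).filter Nat.Prime) ∪ Pr y x := by
    ext p
    rw [mem_union, mem_Pr, mem_filter, mem_filter, mem_range, mem_range]
    constructor
    · rintro ⟨h2, h3⟩
      by_cases h4 : p ≤ y
      · exact Or.inl ⟨by omega, h3⟩
      · exact Or.inr ⟨⟨by omega, by omega⟩, h3⟩
    · rintro (⟨h2, h3⟩ | ⟨⟨h2, h4⟩, h3⟩)
      · exact ⟨by omega, h3⟩
      · exact ⟨by omega, h3⟩
  have h2 : Disjoint ((range (y + 1)).filter Nat.Prime) (Pr y x) := by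
    rw [disjoint_left]
    intro p hp hp'
    rw [mem_filter, mem_range] at hp
    rw [mem_Pr] at hp'
    omega
  rw [h1, sum_union h2]
  ring

lemma trace_eq {p : ℕ} (hp : p.Prime) (ν : Fin d → ℤ) : trace w α p ν / p = ∑ j, (beta w α p j ν).re := by
  have hp0 : (0 : ℝ) < p := by exact_mod_cast hp.pos
  have h1 := Real.rpow_pos_of_pos hp0 ((w : ℝ) / 2)
  have e : (p : ℝ) ^ ((w : ℝ) / 2 + 1) = (p : ℝ) ^ ((w : ℝ) / 2) * p := by rw [Real.rpow_add hp0, Real.rpow_one]
  unfold trace beta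
  rw [Complex.re_sum, div_div, ← e, sum_div]
  refine sum_congr rfl fun j _ => ?_
  rw [Complex.div_ofReal_re]

/-- the logarithm of the quotient and the sum of the traces -/
lemma close (hα : IsFamily w r C δ α) {y x : ℕ} (hy : 1 ≤ y) (hyx : y ≤ x) (ν : Fin d → ℤ) :
    |-Real.log ‖euler w α x ν / euler w α y ν‖ + S (trace w α) y x ν| ≤ b / y := by
  rw [log_quot hα hyx]
  unfold S
  rw [← sum_add_distrib]
  refine (abs_sum_le_sum_abs _ _).trans ?_
  have h1 : ∀ p ∈ Pr y x, |∑ j, Real.log ‖1 - beta w α p j ν‖ + trace w α p ν / p| ≤ b * (1 / (p : ℝ) ^ 2) := by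
    intro p hp
    have hp' := (mem_Pr.1 hp).2
    have hp0 : (0 : ℝ) < p := by exact_mod_cast hp'.pos
    rw [trace_eq hp', ← sum_add_distrib]
    refine (abs_sum_le_sum_abs _ _).trans ?_
    calc ∑ j, |Real.log ‖1 - beta w α p j ν‖ + (beta w α p j ν).re| ≤ ∑ _j : Fin b, (1 / (p : ℝ)) ^ 2 := by
          refine sum_le_sum fun j _ => ?_
          refine (log_bound (half_beta hα hp' j ν)).trans ?_
          exact pow_le_pow_left₀ (norm_nonneg _) (norm_beta hα hp' j ν) 2
      _ = b * (1 / (p : ℝ) ^ 2) := by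
          rw [sum_const, card_univ, Fintype.card_fin, nsmul_eq_mul, div_pow, one_pow]
  refine (sum_le_sum h1).trans ?_
  rw [← mul_sum]
  have h2 := mul_le_mul_of_nonneg_left (sum_sq (x := x) hy) (Nat.cast_nonneg (α := ℝ) b)
  rwa [mul_one_div] at h2

lemma hyp_pos (hα : IsFamily w r C δ α) : Hyp d b r C δ (trace w α) := by
  refine ⟨fun p hp ν ν' hν => ?_, fun p hp ν => ?_, fun p hp => hα.mean p hp⟩
  · unfold trace
    rw [sum_congr rfl fun j _ => hα.congr p hp j ν ν' hν]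
  · have hp0 : (0 : ℝ) < p := by exact_mod_cast hp.pos
    have h1 := Real.rpow_pos_of_pos hp0 ((w : ℝ) / 2)
    unfold trace
    rw [abs_div, abs_of_pos h1, div_le_iff₀ h1]
    refine (Complex.abs_re_le_norm _).trans ((norm_sum_le _ _).trans ?_)
    calc ∑ j, ‖α p j ν‖ ≤ ∑ _j : Fin b, (p : ℝ) ^ ((w : ℝ) / 2) := sum_le_sum fun j _ => hα.weight p hp j ν
      _ = _ := by rw [sum_const, card_univ, Fintype.card_fin, nsmul_eq_mul]

lemma hyp_neg (hα : IsFamily w r C δ α) : Hyp d b (-r) C δ (fun p ν => -trace w α p ν) := by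
  have h := hyp_pos hα
  refine ⟨fun p hp ν ν' hν => ?_, fun p hp ν => ?_, fun p hp => ?_⟩
  · show -trace w α p ν = -trace w α p ν'
    rw [h.per p hp ν ν' hν]
  · show |-trace w α p ν| ≤ b
    rw [abs_neg]
    exact h.bd p hp ν
  · have e : Q282LT.avg d p (fun ν => -trace w α p ν) = -Q282LT.avg d p (trace w α p) := by
      unfold Q282LT.avg
      rw [sum_neg_distrib, neg_div]
    rw [e]
    have h2 := h.mean p hp
    rw [← abs_neg] at h2
    refine le_trans (le_of_eq ?_) h2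
    congr 1
    ring

lemma S_neg (y x : ℕ) (ν : Fin d → ℤ) : S (fun p ν => -trace w α p ν) y x ν = -S (trace w α) y x ν := by
  unfold S
  rw [← sum_neg_distrib]
  exact sum_congr rfl fun p _ => neg_div _ _

lemma log_pos' {a : ℝ} (ha : 1 < a) {y x : ℕ} (hy : 2 ≤ y) (hx : (y : ℝ) ^ a ≤ x) :
    0 < Real.log (Real.log x / Real.log y) ∧ y ≤ x := by
  have hyr : (1 : ℝ) < y := by exact_mod_cast (by omega : 1 < y)
  have hly : 0 < Real.log y := Real.log_pos hyr
  have hya : 0 < (y : ℝ) ^ a := Real.rpow_pos_of_pos (by linarith) _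
  have h1 : a * Real.log y ≤ Real.log x := by
    have := Real.log_le_log hya hx
    rwa [Real.log_rpow (by linarith)] at this
  refine ⟨Real.log_pos ?_, ?_⟩
  · rw [lt_div_iff₀ hly]
    have : 1 * Real.log y < a * Real.log y := mul_lt_mul_of_pos_right ha hly
    linarith
  · have h2 : (y : ℝ) ≤ x := by
      refine le_trans ?_ hx
      calc (y : ℝ) = (y : ℝ) ^ (1 : ℝ) := (Real.rpow_one _).symm
        _ ≤ (y : ℝ) ^ a := Real.rpow_le_rpow_of_exponent_le hyr.le ha.le
    exact_mod_cast h2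

/-- `C`, `δ > 0`, `r` are constants of the family, `c` is a positive function (for the lower bounds: residues with a
normalized trace within `h` of its minimum `-b`, or of its maximum `b`, have a share at least `c h` for all primes
`p ≥ 1 / c h`), `a > 1`, `m < b`, `ε > 0`.

(1) Apparent zeros of order `m > -r`: `E = a ^ ((m + r) / (b + r))`. (2) Apparent poles of order `m > r`:
`E = a ^ ((m - r) / (b - r))`. There is `y₀` such that for all families, `y ≥ y₀`, `y ^ a ≤ X ≤ e^y` and all boxes of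
parameters with sides at least `(d + 1) X ^ (y ^ (E + ε))`, the proportion of the members with an apparent zero (pole) of order at
least `m` between `y` and `x` for some `x` with `y ^ a ≤ x ≤ X` is at most `exp (-y ^ (E - ε))` and,
for the families with the condition above, at least `exp (-y ^ (E + ε))`. -/
theorem result (b w : ℕ) (r C δ a m ε : ℝ) (c : ℝ → ℝ) (hb : 1 ≤ b) (hC : 0 ≤ C) (hδ : 0 < δ) (hc : ∀ h, 0 < h → 0 < c h)
    (ha : 1 < a) (hmb : m < b) (hε : 0 < ε) :
    (-r < m → ∃ y₀ : ℕ, ∀ (d : ℕ) (α : ℕ → Fin b → (Fin d → ℤ) → ℂ), IsFamily w r C δ α →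
      ∀ y X : ℕ, y₀ ≤ y → (y : ℝ) ^ a ≤ X → (X : ℝ) ≤ Real.exp y → ∀ (u : Fin d → ℤ) (L : Fin d → ℕ),
        (∀ i, (d + 1) * (X : ℝ) ^ ((y : ℝ) ^ (a ^ ((m + r) / (b + r)) + ε)) ≤ L i) →
        proportion u L (fun ν => ∃ x : ℕ, x ≤ X ∧ (y : ℝ) ^ a ≤ x ∧ m ≤ apparentOrder w α y x ν) ≤
          Real.exp (-((y : ℝ) ^ (a ^ ((m + r) / (b + r)) - ε))) ∧
        ((∀ h, 0 < h → ∀ p : ℕ, p.Prime → 1 / c h ≤ p → c h ≤ share d p (fun ν => trace w α p ν ≤ -(b - h))) →
          Real.exp (-((y : ℝ) ^ (a ^ ((m + r) / (b + r)) + ε))) ≤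
            proportion u L (fun ν => ∃ x : ℕ, x ≤ X ∧ (y : ℝ) ^ a ≤ x ∧ m ≤ apparentOrder w α y x ν))) ∧
    (r < m → ∃ y₀ : ℕ, ∀ (d : ℕ) (α : ℕ → Fin b → (Fin d → ℤ) → ℂ), IsFamily w r C δ α →
      ∀ y X : ℕ, y₀ ≤ y → (y : ℝ) ^ a ≤ X → (X : ℝ) ≤ Real.exp y → ∀ (u : Fin d → ℤ) (L : Fin d → ℕ),
        (∀ i, (d + 1) * (X : ℝ) ^ ((y : ℝ) ^ (a ^ ((m - r) / (b - r)) + ε)) ≤ L i) →
        proportion u L (fun ν => ∃ x : ℕ, x ≤ X ∧ (y : ℝ) ^ a ≤ x ∧ apparentOrder w α y x ν ≤ -m) ≤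
          Real.exp (-((y : ℝ) ^ (a ^ ((m - r) / (b - r)) - ε))) ∧
        ((∀ h, 0 < h → ∀ p : ℕ, p.Prime → 1 / c h ≤ p → c h ≤ share d p (fun ν => b - h ≤ trace w α p ν)) →
          Real.exp (-((y : ℝ) ^ (a ^ ((m - r) / (b - r)) + ε))) ≤
            proportion u L (fun ν => ∃ x : ℕ, x ≤ X ∧ (y : ℝ) ^ a ≤ x ∧ apparentOrder w α y x ν ≤ -m))) := by
  classical
  have hb0 : (0 : ℝ) < b := by exact_mod_cast hb
  constructor
  · intro hrm
    obtain ⟨κ, y₁, hκ, hy₁, hup⟩ := upper b (-r) C δ a m ε hb0 hrm hmb hC hδ ha hε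
    obtain ⟨κ', y₂, hκ', hy₂, hlo⟩ := lower b (-r) C δ a m ε c hc hb0 hrm hmb hC hδ ha hε
    rw [sub_neg_eq_add, sub_neg_eq_add] at hup hlo
    refine ⟨max (max y₁ y₂) (max ⌈b / κ⌉₊ ⌈b / κ'⌉₊), ?_⟩
    intro d α hα y X hy hXa hXe u L hL
    have hyy1 : y₁ ≤ y := ((le_max_left _ _).trans (le_max_left _ _)).trans hy
    have hyy2 : y₂ ≤ y := ((le_max_right _ _).trans (le_max_left _ _)).trans hy
    have hk1 : (b : ℝ) / κ ≤ y := (Nat.le_ceil _).trans (by exact_mod_cast ((le_max_left _ _).trans (le_max_right _ _)).trans hy)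
    have hk2 : (b : ℝ) / κ' ≤ y := (Nat.le_ceil _).trans (by exact_mod_cast ((le_max_right _ _).trans (le_max_right _ _)).trans hy)
    have hy2 : 2 ≤ y := hy₁.trans hyy1
    have hyr : (0 : ℝ) < y := by exact_mod_cast (by omega : 0 < y)
    have hXr : (0 : ℝ) < X := lt_of_lt_of_le (Real.rpow_pos_of_pos hyr _) hXa
    have hL0 : ∀ i, 0 < L i := fun i => by
      have h1 : (0 : ℝ) < L i := lt_of_lt_of_le (by positivity) (hL i)
      exact_mod_cast h1
    have hP0 : 0 < ∏ i, (L i : ℝ) := prod_pos fun i _ => by exact_mod_cast hL0 i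
    rw [div_le_iff₀ hκ] at hk1
    rw [div_le_iff₀ hκ'] at hk2
    constructor
    · refine le_trans (zprop_mono hP0 ?_) (hup d _ (hyp_neg hα) y X hyy1 hXe u L hL0 hL)
      rintro ν ⟨x, hx, hxa, hord⟩
      obtain ⟨hl, hyx⟩ := log_pos' ha hy2 hxa
      refine ⟨x, hx, hxa, ?_⟩
      rw [S_neg]
      unfold apparentOrder at hord
      rw [le_div_iff₀ hl] at hord
      have h1 := (abs_le.1 (close hα (by omega) hyx ν)).2
      have h2 : (b : ℝ) / y ≤ κ := by rw [div_le_iff₀ hyr]; linarith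
      linarith
    · intro hreach
      have h1 := hlo d _ (hyp_neg hα) (fun h hh p hp hcp => by
        refine (hreach h hh p hp hcp).trans (le_of_eq ?_)
        show Q282LT.avg d p (fun ν => if trace w α p ν ≤ -(b - h) then (1 : ℝ) else 0) =
          Q282LT.avg d p (fun ν => if (b : ℝ) - h ≤ -trace w α p ν then (1 : ℝ) else 0)
        congr 1
        funext ν
        have e : (trace w α p ν ≤ -((b : ℝ) - h)) ↔ ((b : ℝ) - h ≤ -trace w α p ν) := by
          constructor <;> intro h3 <;> linarith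
        rw [if_congr e rfl rfl]) y X hyy2 hXa u L hL
      refine h1.trans (zprop_mono hP0 ?_)
      rintro ν ⟨x, hx, hxa, hord⟩
      obtain ⟨hl, hyx⟩ := log_pos' ha hy2 hxa
      refine ⟨x, hx, hxa, ?_⟩
      rw [S_neg] at hord
      unfold apparentOrder
      rw [le_div_iff₀ hl]
      have h1 := (abs_le.1 (close hα (by omega) hyx ν)).1
      have h2 : (b : ℝ) / y ≤ κ' := by rw [div_le_iff₀ hyr]; linarith
      linarith
  · intro hrm
    obtain ⟨κ, y₁, hκ, hy₁, hup⟩ := upper b r C δ a m ε hb0 hrm hmb hC hδ ha hε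
    obtain ⟨κ', y₂, hκ', hy₂, hlo⟩ := lower b r C δ a m ε c hc hb0 hrm hmb hC hδ ha hε
    refine ⟨max (max y₁ y₂) (max ⌈b / κ⌉₊ ⌈b / κ'⌉₊), ?_⟩
    intro d α hα y X hy hXa hXe u L hL
    have hyy1 : y₁ ≤ y := ((le_max_left _ _).trans (le_max_left _ _)).trans hy
    have hyy2 : y₂ ≤ y := ((le_max_right _ _).trans (le_max_left _ _)).trans hy
    have hk1 : (b : ℝ) / κ ≤ y := (Nat.le_ceil _).trans (by exact_mod_cast ((le_max_left _ _).trans (le_max_right _ _)).trans hy)
    have hk2 : (b : ℝ) / κ' ≤ y := (Nat.le_ceil _).trans (by exact_mod_cast ((le_max_right _ _).trans (le_max_right _ _)).trans hy)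
    have hy2 : 2 ≤ y := hy₁.trans hyy1
    have hyr : (0 : ℝ) < y := by exact_mod_cast (by omega : 0 < y)
    have hXr : (0 : ℝ) < X := lt_of_lt_of_le (Real.rpow_pos_of_pos hyr _) hXa
    have hL0 : ∀ i, 0 < L i := fun i => by
      have h1 : (0 : ℝ) < L i := lt_of_lt_of_le (by positivity) (hL i)
      exact_mod_cast h1
    have hP0 : 0 < ∏ i, (L i : ℝ) := prod_pos fun i _ => by exact_mod_cast hL0 i
    rw [div_le_iff₀ hκ] at hk1
    rw [div_le_iff₀ hκ'] at hk2
    constructor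
    · refine le_trans (zprop_mono hP0 ?_) (hup d _ (hyp_pos hα) y X hyy1 hXe u L hL0 hL)
      rintro ν ⟨x, hx, hxa, hord⟩
      obtain ⟨hl, hyx⟩ := log_pos' ha hy2 hxa
      refine ⟨x, hx, hxa, ?_⟩
      unfold apparentOrder at hord
      rw [div_le_iff₀ hl] at hord
      have h1 := (abs_le.1 (close hα (by omega) hyx ν)).1
      have h2 : (b : ℝ) / y ≤ κ := by rw [div_le_iff₀ hyr]; linarith
      linarith
    · intro hreach
      have h1 := hlo d _ (hyp_pos hα) hreach y X hyy2 hXa u L hL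
      refine h1.trans (zprop_mono hP0 ?_)
      rintro ν ⟨x, hx, hxa, hord⟩
      obtain ⟨hl, hyx⟩ := log_pos' ha hy2 hxa
      refine ⟨x, hx, hxa, ?_⟩
      unfold apparentOrder
      rw [div_le_iff₀ hl]
      have h1 := (abs_le.1 (close hα (by omega) hyx ν)).2
      have h2 : (b : ℝ) / y ≤ κ' := by rw [div_le_iff₀ hyr]; linarith
      linarith

end Pool.Agent.Results.MP_2b9663_nt.RarityOfApparentZeros
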