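import Pool.Agent.Q255.SG.QBd
import Pool.Agent.Q255.SG.Low
import Pool.Agent.Q255.SG.Quad

/-!
# How small and how large `L(X, s)` can be on the edge in mean, uniformly in `X`: the exact exponent

`X` is a smooth projective variety over `ℚ`, `w` a cohomological degree (the `i` of the problem) and
`N` the dimension of `H^w(X)`; more generally a Chow motive over `ℚ`.  The Euler product `L(X, s)` is
absolutely convergent for `Re s > w/2 + 1`; the problem asks whether it can vanish at the real point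
`s₀ = w/2 + 1` of the edge.  Outside a set of Hausdorff dimension `0` it has boundary values `l(t)` at
the points `s₀ + i t`, without any hypothesis on its continuation.  For all Euler products of rank `N`
and any weight with Frobenius eigenvalues of absolute value at most `p^{w/2}` at once we determine the
real exponents `q` for which `∫_a^{a+1} |l(t)|^q dt ≤ C` with one constant `C`, for all these Euler
products and at all heights `a`: these are exactly the `q` with `|q| < 1/N`.  In particular the mean of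
`|L(X, s₀ + i t)|^{-r}`, `0 < r < 1/N`, over `|t| ≤ 1/2` is bounded in terms of `N` and `r` only, whatever
`X`, its conductor and its dimension: near `s₀` the `L`-function can be small only on a small set.  The
bound fails for all other exponents, positive or negative, on the interval `[0, 1]` at the real point,
already for the `N`-fold sums of one quadratic Artin motive and its Tate twists.

No continuation, no functional equation and no automorphy is used or assumed.  Nothing is said at the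
point `s₀` itself.
-/

set_option autoImplicit false

namespace Pool.Agent.Results.MP_2b9663_nt.SharpIntegrability

open Filter Topology Polynomial MeasureTheory

/-- The polynomials `B p`, `p` prime, are the Euler factors of an `L`-function of rank `N` and weight
`w`: `B_p(z) = ∏_{j < N} (1 - α_j z)` with complex numbers `α_j` (some of them possibly `0`) of
absolute value at most `p^{w/2}`.

For the cohomology `H^w(M)` of a Chow motive over `ℚ` and a prime of good reduction the `α_j` are the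
eigenvalues of the geometric Frobenius at `p`, of absolute value `p^{w/2}` (Deligne).  The finitely
many Euler factors at the other primes may be omitted (`B p = 1`), or be the usual ones if the
eigenvalues of Frobenius on the inertia invariants have absolute value at most `p^{w/2}`, as is
expected in general. -/
def IsEulerSystem (N : ℕ) (w : ℤ) (B : ℕ → ℂ[X]) : Prop :=
  ∀ p : ℕ, p.Prime → ∃ α : Fin N → ℂ, (∀ j, ‖α j‖ ≤ (p : ℝ) ^ ((w : ℝ) / 2)) ∧
    ∀ z : ℂ, (B p).eval z = ∏ j, (1 - α j * z)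

/-- The Euler product `∏_p B_p(p^{-s})⁻¹`. -/
noncomputable def LFun (B : ℕ → ℂ[X]) (s : ℂ) : ℂ :=
  ∏' p : Nat.Primes, ((B p).eval (((p : ℕ) : ℂ) ^ (-s)))⁻¹

/-- The point `w/2 + 1 + iτ` of the edge of absolute convergence. -/
noncomputable def edgePoint (w : ℤ) (τ : ℝ) : ℂ := (((w : ℝ) / 2 + 1 : ℝ) : ℂ) + (τ : ℂ) * Complex.I

/-- The angle `|s - s_τ| ≤ K (Re s - (w/2 + 1))` at `s_τ = w/2 + 1 + iτ` in the half-plane
`Re s > w/2 + 1`. -/
def angle (w : ℤ) (τ K : ℝ) : Set ℂ :=
  {s : ℂ | (w : ℝ) / 2 + 1 < s.re ∧ ‖s - edgePoint w τ‖ ≤ K * (s.re - ((w : ℝ) / 2 + 1))}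

/-- `l` is the boundary function of the `L`-function outside the exceptional set `T`: its values
there are not zero, and they are the limits of the partial Euler products and of the `L`-function in
every angle. -/
def IsBoundaryFunction (w : ℤ) (B : ℕ → ℂ[X]) (T : Set ℝ) (l : ℝ → ℂ) : Prop :=
  ∀ τ : ℝ, τ ∉ T → l τ ≠ 0 ∧
    Tendsto (fun x : ℕ => ∏ p ∈ Nat.primesBelow x, ((B p).eval ((p : ℂ) ^ (-edgePoint w τ)))⁻¹)
      atTop (𝓝 (l τ)) ∧
    ∀ K : ℝ, Tendsto (LFun B) (𝓝[angle w τ K] (edgePoint w τ)) (𝓝 (l τ))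

/-- The Euler factors of `L(s - m, χ_D)^N`, `D` a prime number, `D ≡ 1 mod 4`, and `χ_D` the quadratic
character of `ℚ(√D)`, `χ_D(p) = (p / D)`.  This is the `L`-function, in the degree `2m`, of the Chow
motive `A(-m)^{⊕ N}`, where `h(Spec ℚ(√D)) = 1 ⊕ A`. -/
noncomputable def quadratic (D : ℕ) (m : ℤ) (N : ℕ) (p : ℕ) : ℂ[X] :=
  (1 - C ((jacobiSym p D : ℂ) * (p : ℂ) ^ m) * X) ^ N

theorem null_of_dimH {T : Set ℝ} (hT : dimH T = 0) : volume T = 0 := by
  have h1 : (Measure.hausdorffMeasure (1 : ℝ) : Measure ℝ) T = 0 := by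
    have := hausdorffMeasure_of_dimH_lt (X := ℝ) (s := T) (d := 1) (by rw [hT]; norm_num)
    simpa using this
  rw [← MeasureTheory.hausdorffMeasure_real]
  exact h1

theorem exists_alpha {N : ℕ} {w : ℤ} {B : ℕ → ℂ[X]} (hB : IsEulerSystem N w B) :
    ∃ α : ℕ → Fin N → ℂ, Pool.Agent.Q255.SG.Bd (w : ℝ) α ∧
      ∀ p : ℕ, p.Prime → ∀ z : ℂ, (B p).eval z = ∏ j, (1 - α p j * z) := by
  classical
  refine ⟨fun p => if hp : p.Prime then (hB p hp).choose else 0, fun p hp j => ?_,
    fun p hp z => ?_⟩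
  · simp only [dif_pos hp]
    exact (hB p hp).choose_spec.1 j
  · simp only [dif_pos hp]
    exact (hB p hp).choose_spec.2 z

theorem lim_of {N : ℕ} {w : ℤ} {B : ℕ → ℂ[X]} {α : ℕ → Fin N → ℂ}
    (hα : Pool.Agent.Q255.SG.Bd (w : ℝ) α)
    (hB : ∀ p : ℕ, p.Prime → ∀ z : ℂ, (B p).eval z = ∏ j, (1 - α p j * z))
    {T : Set ℝ} {l : ℝ → ℂ} (h : IsBoundaryFunction w B T l) :
    Pool.Agent.Q255.SG.Lim (Pool.Agent.Q255.SG.AP (Pool.Agent.Q255.SG.qAD (w : ℝ) α hα)) T l := by
  intro τ hτ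
  refine ⟨(h τ hτ).1, (h τ hτ).2.1.congr fun x => ?_⟩
  rw [← Pool.Agent.Q255.SG.q_partial hα x τ]
  refine Finset.prod_congr rfl fun p hp => ?_
  rw [hB p (Nat.prime_of_mem_primesBelow hp)]
  rfl

theorem quadratic_eval (D : ℕ) (m : ℤ) (N p : ℕ) (z : ℂ) :
    (quadratic D m N p).eval z =
      ∏ _j : Fin N, (1 - ((jacobiSym p D : ℂ) * (p : ℂ) ^ m) * z) := by
  unfold quadratic
  simp

theorem quadratic_bound (D : ℕ) (m : ℤ) {p : ℕ} (hp : p.Prime) :
    ‖(jacobiSym p D : ℂ) * (p : ℂ) ^ m‖ ≤ (p : ℝ) ^ (((2 * m : ℤ) : ℝ) / 2) := by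
  have h0 : (0 : ℝ) < p := by exact_mod_cast hp.pos
  have h1 : ‖(jacobiSym p D : ℂ)‖ ≤ 1 := by
    rcases jacobiSym.trichotomy p D with h | h | h <;> rw [h] <;> simp
  have h2 : ‖(p : ℂ) ^ m‖ = (p : ℝ) ^ (((2 * m : ℤ) : ℝ) / 2) := by
    rw [norm_zpow, Complex.norm_natCast, ← Real.rpow_intCast]
    congr 1
    push_cast
    ring
  rw [norm_mul, h2]
  exact mul_le_of_le_one_left (by positivity) h1

/-- **The exact range of uniform integrability on the edge.**  Let `N ≥ 1`.

1. Every Euler product of rank `N` and weight `w` has a boundary function on the line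
`Re s = w/2 + 1`, outside a set of Hausdorff dimension `0`.
2. If `|q| < 1/N`, then `∫_a^{a+1} |l(t)|^q dt ≤ C` with a constant `C` for all weights, all Euler
products of rank `N`, all their boundary functions `l` and all real `a`.
3. If `|q| ≥ 1/N`, then for every integer `m` and every `C` there is a prime number `D ≡ 1 mod 4`
such that `∫_0^1 |l(t)|^q dt > C` for the boundary functions `l` of the Euler product
`L(s - m, χ_D)^N` of weight `2m` and rank `N`. -/
theorem result (N : ℕ) (hN : 1 ≤ N) :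
    (∀ (w : ℤ) (B : ℕ → ℂ[X]), IsEulerSystem N w B →
      ∃ T : Set ℝ, dimH T = 0 ∧ ∃ l : ℝ → ℂ, IsBoundaryFunction w B T l) ∧
    (∀ q : ℝ, |q| < 1 / N → ∃ C : ℝ, ∀ (w : ℤ) (B : ℕ → ℂ[X]), IsEulerSystem N w B →
      ∀ T : Set ℝ, dimH T = 0 → ∀ l : ℝ → ℂ, IsBoundaryFunction w B T l → ∀ a : ℝ,
        ∫⁻ t in Set.Icc a (a + 1), ENNReal.ofReal (‖l t‖ ^ q) ≤ ENNReal.ofReal C) ∧
    (∀ q : ℝ, 1 / N ≤ |q| → ∀ (m : ℤ) (C : ℝ), ∃ D : ℕ, D.Prime ∧ D % 4 = 1 ∧
      IsEulerSystem N (2 * m) (quadratic D m N) ∧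
      ∀ T : Set ℝ, dimH T = 0 → ∀ l : ℝ → ℂ, IsBoundaryFunction (2 * m) (quadratic D m N) T l →
        ENNReal.ofReal C < ∫⁻ t in Set.Icc (0 : ℝ) 1, ENNReal.ofReal (‖l t‖ ^ q)) := by
  have hN0 : (0 : ℝ) < N := by exact_mod_cast hN
  refine ⟨fun w B hB => ?_, fun q hq => ?_, fun q hq m C => ?_⟩
  · obtain ⟨α, hα, hBα⟩ := exists_alpha hB
    obtain ⟨T, hT, h⟩ := Pool.Agent.Q255.SG.boundary_q hα
    have h' : ∀ τ : ℝ, ∃ l : ℂ, τ ∉ T → l ≠ 0 ∧
        Tendsto (fun x : ℕ => ∏ p ∈ Nat.primesBelow x,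
          ((B p).eval ((p : ℂ) ^ (-edgePoint w τ)))⁻¹) atTop (𝓝 l) ∧
        ∀ K : ℝ, Tendsto (LFun B) (𝓝[angle w τ K] (edgePoint w τ)) (𝓝 l) := by
      intro τ
      by_cases hτ : τ ∈ T
      · exact ⟨0, fun h => absurd hτ h⟩
      · obtain ⟨l, h1, h2, h3⟩ := h τ hτ
        refine ⟨l, fun _ => ⟨h1, h2.congr fun x => ?_, fun K => (h3 K).congr fun s => ?_⟩⟩
        · refine Finset.prod_congr rfl fun p hp => ?_
          rw [hBα p (Nat.prime_of_mem_primesBelow hp)]
          rfl
        · refine tprod_congr fun p => ?_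
          rw [hBα p p.2]
    choose l hl using h'
    exact ⟨T, hT, l, hl⟩
  · obtain ⟨C, hC, h⟩ := Pool.Agent.Q255.SG.ad_int (κ := N) (M := N * Pool.Agent.Q255.SA.S0)
      (q0 := |q|) hN0.le (mul_nonneg hN0.le Pool.Agent.Q255.SA.S0_nonneg) (abs_nonneg q) (by
        rw [lt_div_iff₀ hN0] at hq
        linarith)
    refine ⟨C, fun w B hB T hT l hl a => ?_⟩
    obtain ⟨α, hα, hBα⟩ := exists_alpha hB
    exact h _ T (null_of_dimH hT) l (lim_of hα hBα hl) q le_rfl a
  · have hqN : 1 ≤ |q| * N := by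
      rw [div_le_iff₀ hN0] at hq
      exact hq
    obtain ⟨s, hs, hs1⟩ : ∃ s : ℤ, (s = 1 ∨ s = -1) ∧ q * (s : ℝ) = |q| := by
      rcases le_total 0 q with h | h
      · exact ⟨1, Or.inl rfl, by rw [abs_of_nonneg h]; simp⟩
      · exact ⟨-1, Or.inr rfl, by rw [abs_of_nonpos h]; simp⟩
    obtain ⟨c, C', hc, hC', hlow⟩ := Pool.Agent.Q255.SG.low_int (κ := N)
      (M := N * Pool.Agent.Q255.SA.S0) hN0.le
      (mul_nonneg hN0.le Pool.Agent.Q255.SA.S0_nonneg) (q := q) (s := (s : ℝ)) (by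
        rw [← mul_assoc, hs1]
        exact hqN)
    obtain ⟨x, hx3, hx⟩ : ∃ x : ℕ, 3 ≤ x ∧ |C| + C' + 1 ≤ c * Real.log (Real.log x) := by
      have h1 : Tendsto (fun x : ℕ => c * Real.log (Real.log x)) atTop atTop :=
        (Real.tendsto_log_atTop.comp (Real.tendsto_log_atTop.comp
          tendsto_natCast_atTop_atTop)).const_mul_atTop hc
      obtain ⟨x, h2, h3⟩ := ((h1.eventually_ge_atTop (|C| + C' + 1)).and
        (eventually_ge_atTop 3)).exists
      exact ⟨x, h3, h2⟩
    obtain ⟨D, hD1, _, hD2, hD3⟩ := Pool.Agent.Q255.SG.exists_D x hs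
    refine ⟨D, hD1, hD2, fun p hp => ⟨fun _ => (jacobiSym p D : ℂ) * (p : ℂ) ^ m,
      fun _ => quadratic_bound D m hp, fun z => quadratic_eval D m N p z⟩, fun T hT l hl => ?_⟩
    set α : ℕ → Fin N → ℂ := fun p _ => (jacobiSym p D : ℂ) * (p : ℂ) ^ m with hαdef
    have hα : Pool.Agent.Q255.SG.Bd ((2 * m : ℤ) : ℝ) α := fun p hp _ => quadratic_bound D m hp
    have hlim := lim_of (w := 2 * m) hα (fun p _ z => quadratic_eval D m N p z) hl
    have h1 := hlow _ x hx3 (fun p hpx hp => ?_) T (null_of_dimH hT) l hlim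
    · have h2 : ENNReal.ofReal C + ENNReal.ofReal C' <
          (∫⁻ t in Set.Icc (0 : ℝ) 1, ENNReal.ofReal (‖l t‖ ^ q)) + ENNReal.ofReal C' := by
        refine lt_of_lt_of_le ?_ h1
        refine lt_of_lt_of_le ?_ (ENNReal.ofReal_le_ofReal hx)
        calc ENNReal.ofReal C + ENNReal.ofReal C' ≤ ENNReal.ofReal |C| + ENNReal.ofReal C' := by
              gcongr
              exact le_abs_self C
          _ = ENNReal.ofReal (|C| + C') := (ENNReal.ofReal_add (abs_nonneg C) hC'.le).symm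
          _ < ENNReal.ofReal (|C| + C' + 1) := by
              rw [ENNReal.ofReal_lt_ofReal_iff (by positivity)]
              linarith
      exact lt_of_add_lt_add_right h2
    · have hp0 : (p : ℝ) ≠ 0 := by exact_mod_cast hp.ne_zero
      show (if p.Prime then ∑ j : Fin N, α p j *
        (((p : ℝ) ^ (-(((2 * m : ℤ) : ℝ) / 2)) : ℝ) : ℂ) else 0) = (((s : ℝ) * N : ℝ) : ℂ)
      rw [if_pos hp]
      simp only [hαdef]
      rw [Finset.sum_const, Finset.card_univ, Fintype.card_fin, nsmul_eq_mul, hD3 p hpx hp]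
      have h3 : (((p : ℝ) ^ (-(((2 * m : ℤ) : ℝ) / 2)) : ℝ) : ℂ) = ((p : ℂ) ^ m)⁻¹ := by
        have h4 : -(((2 * m : ℤ) : ℝ) / 2) = ((-m : ℤ) : ℝ) := by
          push_cast
          ring
        rw [h4, Real.rpow_intCast, zpow_neg]
        push_cast
        rfl
      rw [h3]
      have hp1 : (p : ℂ) ^ m ≠ 0 := zpow_ne_zero m (by exact_mod_cast hp.ne_zero)
      field_simp
      push_cast
      ring

end Pool.Agent.Results.MP_2b9663_nt.SharpIntegrability
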